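import Mathlib

set_option autoImplicit false

namespace Pool.Agent.Results.MP_d57cd0_co.PirconInduced

universe u

/-- A *special partial matching* (SPM) on a poset `Q` with maximum `⊤`. -/
structure IsSPM {Q : Type u} [PartialOrder Q] [OrderTop Q] (M : Q → Q) : Prop where
  involutive : ∀ x, M (M x) = x
  top_covBy : M ⊤ ⋖ ⊤
  adjacent : ∀ x, M x ⋖ x ∨ M x = x ∨ x ⋖ M x
  lt_of_covBy : ∀ x y, x ⋖ y → M x ≠ y → M x < M y

/-- A *special matching* is an SPM without fixed points. -/
structure IsSpecialMatching {Q : Type u} [PartialOrder Q] [OrderTop Q] (M : Q → Q) : Prop where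
  isSPM : IsSPM M
  no_fixed : ∀ x, M x ≠ x

/-- A poset `P` is a *pircon* if for every non-minimal `x` the ideal `P_{≤ x}` is finite and
admits an SPM. -/
def IsPircon (P : Type u) [PartialOrder P] : Prop :=
  ∀ x : P, ¬ IsMin x → (Set.Iic x).Finite ∧ ∃ M : Set.Iic x → Set.Iic x, IsSPM M

/-- A poset `P` is a *zircon* if for every non-minimal `x` the ideal `P_{≤ x}` is finite and
admits a special matching. -/
def IsZircon (P : Type u) [PartialOrder P] : Prop :=
  ∀ x : P, ¬ IsMin x → (Set.Iic x).Finite ∧ ∃ M : Set.Iic x → Set.Iic x, IsSpecialMatching M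

/-- A *rank function*: `0` on minimal elements, and it increases by one along covers. -/
def IsRankFunction {P : Type u} [PartialOrder P] (rk : P → ℕ) : Prop :=
  (∀ x, IsMin x → rk x = 0) ∧ ∀ x y, x ⋖ y → rk y = rk x + 1

/-- A non-minimal element of an induced subposet is non-minimal in the ambient poset. -/
lemma not_isMin_coe {Z : Type u} [PartialOrder Z] {S : Set Z} {p : S} (hp : ¬ IsMin p) :
    ¬ IsMin (p : Z) := by
  intro h
  apply hp
  intro q hq
  exact h hq

open Classical in
/-- The map `M'_p` on `P_{≤ p}` for an induced subposet `P = S` of `Z`: `M'_p(x) = M_p(x)` if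
`M_p(x) ∈ P` and `M'_p(x) = x` otherwise. -/
noncomputable def inducedMap {Z : Type u} [PartialOrder Z] (S : Set Z) (p : S)
    (M : Set.Iic (p : Z) → Set.Iic (p : Z)) : Set.Iic p → Set.Iic p := fun x =>
  if h : (M ⟨(x : S), x.2⟩ : Z) ∈ S then ⟨⟨M ⟨(x : S), x.2⟩, h⟩, (M ⟨(x : S), x.2⟩).2⟩ else x

/-- The induced subposet `S` of `Z` is an *induced pircon* of `Z` with respect to the rank
function `rk` of `Z` and the chosen matchings `M z` on `Z_{≤ z}`. -/
structure IsInducedPircon {Z : Type u} [PartialOrder Z] (rk : Z → ℕ)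
    (M : ∀ z : Z, ¬ IsMin z → Set.Iic z → Set.Iic z) (S : Set Z) : Prop where
  isSPM : ∀ (p : S) (hp : ¬ IsMin p), IsSPM (inducedMap S p (M (p : Z) (not_isMin_coe hp)))
  isRank : IsRankFunction (fun x : S => rk (x : Z))

/-! ### Ambient versions -/

section ambient

variable {P : Type u} [PartialOrder P]

/-- Ambient version of an SPM on `P_{≤ t}`. -/
structure SPMOn (t : P) (M : P → P) : Prop where
  le : ∀ x ≤ t, M x ≤ t
  invol : ∀ x ≤ t, M (M x) = x
  top : M t ⋖ t
  adj : ∀ x ≤ t, M x ⋖ x ∨ M x = x ∨ x ⋖ M x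
  mono : ∀ x y, y ≤ t → x ⋖ y → M x ≠ y → M x < M y

lemma covBy_Iic {t : P} {x y : Set.Iic t} : x ⋖ y ↔ (x : P) ⋖ (y : P) := by
  constructor
  · intro h
    refine ⟨h.1, fun z hz hz' => ?_⟩
    exact h.2 (c := ⟨z, hz'.le.trans y.2⟩) hz hz'
  · intro h
    exact ⟨h.1, fun z hz hz' => h.2 (c := z) hz hz'⟩

/-- Extend a self-map of `P_{≤ t}` by the identity. -/
noncomputable def extend {t : P} (M : Set.Iic t → Set.Iic t) (x : P) : P :=
  open Classical in if h : x ≤ t then M ⟨x, h⟩ else x

lemma extend_coe {t : P} (M : Set.Iic t → Set.Iic t) (x : Set.Iic t) :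
    extend M (x : P) = M x := by
  have : (x : P) ≤ t := x.2
  simp [extend, this]

lemma spmOn_extend {t : P} {M : Set.Iic t → Set.Iic t} (h : IsSPM M) : SPMOn t (extend M) where
  le x hx := by
    have := extend_coe M ⟨x, hx⟩
    rw [show extend M x = M ⟨x, hx⟩ from this]
    exact (M ⟨x, hx⟩).2
  invol x hx := by
    have h1 : extend M x = M ⟨x, hx⟩ := extend_coe M ⟨x, hx⟩
    rw [h1, extend_coe, h.involutive]
  top := by
    have h1 : extend M t = M ⊤ := extend_coe M ⊤
    rw [h1]
    exact covBy_Iic.mp h.top_covBy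
  adj x hx := by
    have h1 : extend M x = M ⟨x, hx⟩ := extend_coe M ⟨x, hx⟩
    rw [h1]
    rcases h.adjacent ⟨x, hx⟩ with h2 | h2 | h2
    · exact Or.inl (covBy_Iic.mp h2)
    · right; left; rw [h2]
    · exact Or.inr (Or.inr (covBy_Iic.mp h2))
  mono x y hy hxy hne := by
    have hx : x ≤ t := hxy.le.trans hy
    have h1 : extend M x = M ⟨x, hx⟩ := extend_coe M ⟨x, hx⟩
    have h2 : extend M y = M ⟨y, hy⟩ := extend_coe M ⟨y, hy⟩
    rw [h1, h2]
    apply h.lt_of_covBy ⟨x, hx⟩ ⟨y, hy⟩ (covBy_Iic.mpr hxy)
    intro h3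
    apply hne
    rw [h1, h3]

/-- Restrict an ambient map to `P_{≤ t}`. -/
def restr (t : P) (M : P → P) (h : ∀ x ≤ t, M x ≤ t) : Set.Iic t → Set.Iic t :=
  fun x => ⟨M x, h x x.2⟩

lemma isSPM_restr {t : P} {M : P → P} (h : SPMOn t M) : IsSPM (restr t M h.le) where
  involutive x := Subtype.ext (h.invol x x.2)
  top_covBy := covBy_Iic.mpr h.top
  adjacent x := by
    rcases h.adj x x.2 with h2 | h2 | h2
    · exact Or.inl (covBy_Iic.mpr h2)
    · exact Or.inr (Or.inl (Subtype.ext h2))
    · exact Or.inr (Or.inr (covBy_Iic.mpr h2))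
  lt_of_covBy x y hxy hne := h.mono x y y.2 (covBy_Iic.mp hxy) (fun h3 => hne (Subtype.ext h3))

/-- `[x,y]` is a chain with three elements. -/
def C (x y : P) : Prop := ∃ w, x ⋖ w ∧ w ⋖ y ∧ ∀ v, x < v → v < y → v = w

/-- Some three-element chain interval `[z,s]` lies in `[x,y]`. -/
def R (x y : P) : Prop := ∃ z s, x ≤ z ∧ C z s ∧ s ≤ y

lemma C.lt {x y : P} (h : C x y) : x < y := by
  obtain ⟨w, h1, h2, _⟩ := h
  exact h1.lt.trans h2.lt

lemma R.lt {x y : P} (h : R x y) : x < y := by
  obtain ⟨z, s, h1, h2, h3⟩ := h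
  exact (h1.trans_lt h2.lt).trans_le h3

lemma R.mono {x y x' y' : P} (h : R x y) (hx : x' ≤ x) (hy : y ≤ y') : R x' y' := by
  obtain ⟨z, s, h1, h2, h3⟩ := h
  exact ⟨z, s, hx.trans h1, h2, h3.trans hy⟩

lemma C.R {x y : P} (h : C x y) : R x y := ⟨x, y, le_rfl, h, le_rfl⟩

lemma exists_up {t x z : P} (hfin : (Set.Iic t).Finite) (hz : z ≤ t) (hxz : x < z) :
    ∃ y, x ⋖ y ∧ y ≤ z := by
  have hf : ({y | x < y ∧ y ≤ z} : Set P).Finite :=
    hfin.subset (fun y hy => hy.2.trans hz)
  obtain ⟨y, hy⟩ := hf.exists_minimal ⟨z, hxz, le_rfl⟩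
  refine ⟨y, ⟨hy.prop.1, fun v hv hv' => ?_⟩, hy.prop.2⟩
  exact hy.not_lt ⟨hv, hv'.le.trans hy.prop.2⟩ hv'

lemma exists_down {t x z : P} (hfin : (Set.Iic t).Finite) (hz : z ≤ t) (hxz : x < z) :
    ∃ y, x ≤ y ∧ y ⋖ z := by
  have hf : ({y | x ≤ y ∧ y < z} : Set P).Finite :=
    hfin.subset (fun y hy => hy.2.le.trans hz)
  obtain ⟨y, hy⟩ := hf.exists_maximal ⟨x, le_rfl, hxz⟩
  refine ⟨y, hy.prop.1, ⟨hy.prop.2, fun v hv hv' => ?_⟩⟩
  exact hy.not_gt ⟨hy.prop.1.trans hv.le, hv'⟩ hv

lemma chain_up {t z : P} (hfin : (Set.Iic t).Finite) (hz : z ≤ t) (Q : P → Prop) (h0 : Q z)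
    (hs : ∀ x y, x ⋖ y → y ≤ z → Q y → Q x) : ∀ x ≤ z, Q x := by
  have key : ∀ n : ℕ, ∀ x ≤ z, (Set.Icc x z).ncard ≤ n → Q x := by
    intro n
    induction n with
    | zero =>
      intro x hx hn
      have hf : (Set.Icc x z).Finite := hfin.subset (fun y hy => hy.2.trans hz)
      have : Set.Icc x z = ∅ := (Set.ncard_eq_zero hf).mp (Nat.le_zero.mp hn)
      have hx' : x ∈ Set.Icc x z := ⟨le_rfl, hx⟩
      rw [this] at hx'
      exact absurd hx' (Set.notMem_empty x)
    | succ n ih =>
      intro x hx hn
      rcases hx.eq_or_lt with rfl | hlt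
      · exact h0
      · obtain ⟨y, hxy, hyz⟩ := exists_up hfin hz hlt
        refine hs x y hxy hyz (ih y hyz ?_)
        have hf : (Set.Icc x z).Finite := hfin.subset (fun y hy => hy.2.trans hz)
        have : (Set.Icc y z).ncard < (Set.Icc x z).ncard := by
          apply Set.ncard_lt_ncard _ hf
          refine ⟨fun v hv => ⟨hxy.le.trans hv.1, hv.2⟩, fun hsub => ?_⟩
          exact absurd (hsub ⟨le_rfl, hx⟩).1 hxy.lt.not_ge
        omega
  intro x hx
  exact key _ x hx le_rfl

lemma chain_down {t x : P} (hfin : (Set.Iic t).Finite) (Q : P → Prop) (h0 : Q x)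
    (hs : ∀ y z, y ⋖ z → x ≤ y → z ≤ t → Q y → Q z) : ∀ z ≤ t, x ≤ z → Q z := by
  have key : ∀ n : ℕ, ∀ z ≤ t, x ≤ z → (Set.Icc x z).ncard ≤ n → Q z := by
    intro n
    induction n with
    | zero =>
      intro z hz hx hn
      have hf : (Set.Icc x z).Finite := hfin.subset (fun y hy => hy.2.trans hz)
      have : Set.Icc x z = ∅ := (Set.ncard_eq_zero hf).mp (Nat.le_zero.mp hn)
      have hx' : x ∈ Set.Icc x z := ⟨le_rfl, hx⟩
      rw [this] at hx'
      exact absurd hx' (Set.notMem_empty x)
    | succ n ih =>
      intro z hz hx hn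
      rcases hx.eq_or_lt with rfl | hlt
      · exact h0
      · obtain ⟨y, hxy, hyz⟩ := exists_down hfin hz hlt
        refine hs y z hyz hxy hz (ih y (hyz.le.trans hz) hxy ?_)
        have hf : (Set.Icc x z).Finite := hfin.subset (fun y hy => hy.2.trans hz)
        have : (Set.Icc x y).ncard < (Set.Icc x z).ncard := by
          apply Set.ncard_lt_ncard _ hf
          refine ⟨fun v hv => ⟨hv.1, hv.2.trans hyz.le⟩, fun hsub => ?_⟩
          exact absurd (hsub ⟨hx, le_rfl⟩).2 hyz.lt.not_ge
        omega
  intro z hz hx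
  exact key _ z hz hx le_rfl

namespace SPMOn

variable {t : P} {M : P → P} (h : SPMOn t M)
include h

/-- If `x` is fixed and `y` covers `x` then `M y` is `y` or covers `y`. -/
lemma up_of_fixed {x y : P} (hy : y ≤ t) (hxy : x ⋖ y) (hx : M x = x) (hyne : M y ≠ y) :
    y ⋖ M y := by
  have h1 : x < M y := by
    have := h.mono x y hy hxy (by rw [hx]; exact hxy.lt.ne)
    rwa [hx] at this
  rcases h.adj y hy with h2 | h2 | h2
  · exact absurd h2.lt (hxy.2 h1)
  · exact absurd h2 hyne
  · exact h2

lemma down_of_fixed {x y : P} (hy : y ≤ t) (hxy : x ⋖ y) (hy' : M y = y) (hxne : M x ≠ x) :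
    M x ⋖ x := by
  have h1 : M x < y := by
    have := h.mono x y hy hxy (by
      intro h3
      have : M (M x) = M y := by rw [h3]
      rw [h.invol x (hxy.le.trans hy), hy'] at this
      exact hxy.lt.ne this)
    rwa [hy'] at this
  rcases h.adj x (hxy.le.trans hy) with h2 | h2 | h2
  · exact h2
  · exact absurd h2 hxne
  · exact absurd h1 (hxy.2 h2.lt)

/-- Lifting property, first form. -/
lemma lift1 (hfin : (Set.Iic t).Finite) {x z : P} (hz : z ≤ t) (hxz : x ≤ z) :
    M x ≤ z ∨ M x ≤ M z := by
  refine chain_up hfin hz (fun x => M x ≤ z ∨ M x ≤ M z) (Or.inr le_rfl) ?_ x hxz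
  intro x y hxy hyz ih
  by_cases hM : M x = y
  · exact Or.inl (hM.le.trans hyz)
  · have := h.mono x y (hyz.trans hz) hxy hM
    rcases ih with ih | ih
    · exact Or.inl (this.le.trans ih)
    · exact Or.inr (this.le.trans ih)

/-- Lifting property, second form. -/
lemma lift2 (hfin : (Set.Iic t).Finite) {x z : P} (hz : z ≤ t) (hxz : x ≤ z) :
    x ≤ M z ∨ M x ≤ M z := by
  refine chain_down hfin (fun z => x ≤ M z ∨ M x ≤ M z) (Or.inr le_rfl) ?_ z hz hxz
  intro y z hyz hxy hz ih
  by_cases hM : M y = z
  · left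
    have : M z = y := by rw [← hM]; exact h.invol y (hyz.le.trans hz)
    rw [this]; exact hxy
  · have := h.mono y z hz hyz hM
    rcases ih with ih | ih
    · exact Or.inl (ih.trans this.le)
    · exact Or.inr (ih.trans this.le)

/-- `M` is injective on `P_{≤ t}`. -/
lemma inj {x y : P} (hx : x ≤ t) (hy : y ≤ t) (hxy : M x = M y) : x = y := by
  rw [← h.invol x hx, hxy, h.invol y hy]

lemma eq_symm {x y : P} (hx : x ≤ t) (hxy : M x = y) : M y = x := by
  rw [← hxy]; exact h.invol x hx

/-- (F1) -/
lemma C_up (hfin : (Set.Iic t).Finite) {x y : P} (hy : y ≤ t) (hxy : x ⋖ y) (hx : M x = x)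
    (hyne : M y ≠ y) : C x (M y) := by
  have hup := h.up_of_fixed hy hxy hx hyne
  have hMy := h.le y hy
  have hxt := hxy.le.trans hy
  refine ⟨y, hxy, hup, fun v hv hv' => ?_⟩
  by_contra hne
  obtain ⟨v2, hvv2, hv2⟩ := exists_down hfin hMy hv'
  have hv2t : v2 ≤ t := hv2.le.trans hMy
  have hv2y : v2 ≠ y := by
    rintro rfl
    rcases hvv2.eq_or_lt with h1 | h1
    · exact hne h1
    · exact hxy.2 hv h1
  have hlt : M v2 < y := by
    have := h.mono v2 (M y) hMy hv2 (by
      intro h3
      exact hv2y (h.inj hv2t hy h3))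
    rwa [h.invol y hy] at this
  have hxv2 : x < v2 := hv.trans_le hvv2
  have hle : x ≤ M v2 := by
    rcases h.lift2 hfin hv2t hxv2.le with h1 | h1
    · exact h1
    · rwa [hx] at h1
  rcases hle.eq_or_lt with h1 | h1
  · have : M x = v2 := h.eq_symm hv2t h1.symm
    rw [hx] at this
    exact hxv2.ne this
  · exact hxy.2 h1 hlt

/-- (F2) -/
lemma C_down (hfin : (Set.Iic t).Finite) {x y : P} (hy : y ≤ t) (hxy : x ⋖ y) (hy' : M y = y)
    (hxne : M x ≠ x) : C (M x) y := by
  have hdown := h.down_of_fixed hy hxy hy' hxne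
  have hxt := hxy.le.trans hy
  refine ⟨x, hdown, hxy, fun v hv hv' => ?_⟩
  by_contra hne
  obtain ⟨v1, hv1, hv1v⟩ := exists_up hfin (hv'.le.trans hy) hv
  have hv1y : v1 < y := hv1v.trans_lt hv'
  have hv1t : v1 ≤ t := hv1y.le.trans hy
  have hv1x : v1 ≠ x := by
    rintro rfl
    rcases hv1v.eq_or_lt with h1 | h1
    · exact hne h1.symm
    · exact hxy.2 h1 hv'
  have hlt : x < M v1 := by
    have := h.mono (M x) v1 hv1t hv1 (by rw [h.invol x hxt]; exact hv1x.symm)
    rwa [h.invol x hxt] at this
  have hle : M v1 ≤ y := by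
    rcases h.lift1 hfin hy hv1y.le with h1 | h1
    · exact h1
    · rwa [hy'] at h1
  rcases hle.eq_or_lt with h1 | h1
  · have := h.eq_symm hv1t h1
    rw [hy'] at this
    exact hv1y.ne this.symm
  · exact hxy.2 hlt h1

/-- (F3a) -/
lemma F3a (hfin : (Set.Iic t).Finite) {x y z : P} (hz : z ≤ t) (hxy : x ⋖ y) (hyz : y ⋖ z)
    (hu : ∀ v, x < v → v < z → v = y) (hzf : M z = z) (hxne : M x ≠ x) :
    M x = y ∨ M x ⋖ x := by
  have hxz := hxy.lt.trans hyz.lt
  have hxt := hxz.le.trans hz
  rcases h.adj x hxt with h1 | h1 | h1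
  · exact Or.inr h1
  · exact absurd h1 hxne
  · left
    have hle : M x ≤ z := by
      rcases h.lift1 hfin hz hxz.le with h2 | h2
      · exact h2
      · rwa [hzf] at h2
    rcases hle.eq_or_lt with h2 | h2
    · have := h.eq_symm hxt h2
      rw [hzf] at this
      exact absurd this hxz.ne'
    · exact hu _ h1.lt h2

/-- (F3b) -/
lemma F3b (hfin : (Set.Iic t).Finite) {x z : P} (hz : z ≤ t) (hC : C x z)
    (hzne : M z ≠ z) (hxne : M x ≠ x) : R (M x) (M z) := by
  obtain ⟨y, hxy, hyz, hu⟩ := hC
  have hxz := hxy.lt.trans hyz.lt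
  have hxt := hxz.le.trans hz
  have hyt := hyz.le.trans hz
  have hMz := h.le z hz
  rcases h.adj z hz with hzd | hzd | hzd
  · by_cases hMzy : M z = y
    · -- case (b1)
      have hMy : M y = z := h.eq_symm hz hMzy
      have hMx : M x ⋖ x := by
        rcases h.adj x hxt with h1 | h1 | h1
        · exact h1
        · exact absurd h1 hxne
        · exfalso
          have hle : M x ≤ z := by
            rcases h.lift1 hfin hz hxz.le with h2 | h2
            · exact h2
            · rw [hMzy] at h2; exact h2.trans hyz.le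
          rcases hle.eq_or_lt with h2 | h2
          · have := h.eq_symm hxt h2
            rw [hMzy] at this
            exact hxy.lt.ne' this
          · have h3 := hu _ h1.lt h2
            have := h.eq_symm hxt h3
            rw [hMy] at this
            exact hxz.ne' this
      rw [hMzy]
      apply C.R
      refine ⟨x, hMx, hxy, fun v hv hv' => ?_⟩
      by_contra hne
      obtain ⟨v1, hv1, hv1v⟩ := exists_up hfin (hv'.le.trans hyt) hv
      have hv1y : v1 < y := hv1v.trans_lt hv'
      have hv1t : v1 ≤ t := hv1y.le.trans hyt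
      have hv1x : v1 ≠ x := by
        rintro rfl
        rcases hv1v.eq_or_lt with h1 | h1
        · exact hne h1.symm
        · exact hxy.2 h1 hv'
      have hlt : x < M v1 := by
        have := h.mono (M x) v1 hv1t hv1 (by rw [h.invol x hxt]; exact hv1x.symm)
        rwa [h.invol x hxt] at this
      have hle : M v1 ≤ z := by
        rcases h.lift1 hfin hyt hv1y.le with h1 | h1
        · exact h1.trans hyz.le
        · rwa [hMy] at h1
      rcases hle.eq_or_lt with h1 | h1
      · have := h.eq_symm hv1t h1
        rw [hMzy] at this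
        exact hv1y.ne' this
      · have h3 := hu _ hlt h1
        have := h.eq_symm hv1t h3
        rw [hMy] at this
        exact (hv1y.trans hyz.lt).ne' this
    · -- case (b2)
      set v := M z with hv
      have hMv : M v = z := h.invol z hz
      have hxv : ¬ x ≤ v := by
        intro hle
        rcases hle.eq_or_lt with h1 | h1
        · rw [← h1] at hzd
          exact hzd.2 hxy.lt hyz.lt
        · exact hMzy (hu v h1 hzd.lt)
      have hqv : M x ≤ v := by
        rcases h.lift2 hfin hz hxz.le with h1 | h1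
        · exact absurd h1 hxv
        · exact h1
      have hqx : M x ⋖ x := by
        rcases h.adj x hxt with h1 | h1 | h1
        · exact h1
        · exact absurd h1 hxne
        · exact absurd (h1.le.trans hqv) hxv
      have hqv' : M x < v := by
        rcases hqv.eq_or_lt with h1 | h1
        · exfalso
          have := h.inj hxt hz h1
          exact hxz.ne this
        · exact h1
      have hyv : ¬ y ≤ v := fun hle => hxv (hxy.le.trans hle)
      have hMyz : M y ≠ z := by
        intro h1
        have := h.eq_symm hyt h1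
        exact hMzy this
      have hwv : M y < v := h.mono y z hz hyz hMyz
      have hMxy : M x ≠ y := by
        intro h1
        rw [h1] at hqx
        exact hqx.lt.asymm hxy.lt
      have hqw : M x < M y := h.mono x y hyt hxy hMxy
      have hvt : v ≤ t := hMz
      -- nothing between `M y` and `v`
      have hcov2 : ∀ v', M y < v' → ¬ v' < v := by
        intro v' h1 h2
        obtain ⟨w1, hw1, hw1v⟩ := exists_up hfin (h2.le.trans hvt) h1
        have hw1v' : w1 < v := hw1v.trans_lt h2
        have hw1t : w1 ≤ t := hw1v'.le.trans hvt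
        have hlt : y < M w1 := by
          have := h.mono (M y) w1 hw1t hw1 (by
            rw [h.invol y hyt]
            intro h3
            rw [← h3] at hw1v'
            exact hyv hw1v'.le)
          rwa [h.invol y hyt] at this
        rcases h.lift1 hfin hvt hw1v'.le with h3 | h3
        · exact hyv (hlt.le.trans h3)
        · rw [hMv] at h3
          rcases h3.eq_or_lt with h4 | h4
          · have := h.eq_symm hw1t h4
            exact hw1v'.ne' this
          · exact hyz.2 hlt h4
      have hfirst : ∀ v', M x < v' → v' < v → M x ⋖ M y ∧ M y ≤ v' := by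
        intro v' h1 h2
        obtain ⟨v1, hv1, hv1v⟩ := exists_up hfin (h2.le.trans hvt) h1
        have hv1v' : v1 < v := hv1v.trans_lt h2
        have hv1t : v1 ≤ t := hv1v'.le.trans hvt
        have hlt : x < M v1 := by
          have := h.mono (M x) v1 hv1t hv1 (by
            rw [h.invol x hxt]
            intro h3
            rw [← h3] at hv1v'
            exact hxv hv1v'.le)
          rwa [h.invol x hxt] at this
        rcases h.lift1 hfin hvt hv1v'.le with h3 | h3
        · exact absurd (hlt.le.trans h3) hxv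
        · rw [hMv] at h3
          rcases h3.eq_or_lt with h4 | h4
          · have := h.eq_symm hv1t h4
            exact absurd this hv1v'.ne'
          · have h5 := hu _ hlt h4
            have h6 : M y = v1 := h.eq_symm hv1t h5
            rw [h6]
            exact ⟨hv1, hv1v⟩
      apply C.R
      refine ⟨M y, (hfirst (M y) hqw hwv).1, ⟨hwv, fun v' h1 h2 => hcov2 v' h1 h2⟩, ?_⟩
      intro v' h1 h2
      rcases (hfirst v' h1 h2).2.eq_or_lt with h3 | h3
      · exact h3.symm
      · exact absurd h2 (hcov2 v' h3)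
  · exact absurd hzd hzne
  · -- case (b3)
    set v := M z with hv
    have hMv : M v = z := h.invol z hz
    have hvt : v ≤ t := hMz
    rcases h.adj x hxt with h1 | h1 | h1
    · exact (C.R ⟨y, hxy, hyz, hu⟩).mono h1.le hzd.le
    · exact absurd h1 hxne
    · by_cases hMxy : M x = y
      · rw [hMxy]
        have hMy : M y = x := h.eq_symm hxt hMxy
        apply C.R
        refine ⟨z, hyz, hzd, fun v' hv1 hv1' => ?_⟩
        by_contra hne
        obtain ⟨v2, hvv2, hv2⟩ := exists_down hfin hvt hv1'
        have hv2t : v2 ≤ t := hv2.le.trans hvt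
        have hv2z : v2 ≠ z := by
          rintro rfl
          rcases hvv2.eq_or_lt with h2 | h2
          · exact hne h2
          · exact hyz.2 hv1 h2
        have hlt : M v2 < z := by
          have := h.mono v2 v hvt hv2 (by
            intro h3
            exact hv2z (h.inj hv2t hz (by rw [h3])))
          rwa [hMv] at this
        have hyv2 : y < v2 := hv1.trans_le hvv2
        have hle : x ≤ M v2 := by
          rcases h.lift2 hfin hv2t hyv2.le with h2 | h2
          · exact hxy.le.trans h2
          · rwa [hMy] at h2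
        rcases hle.eq_or_lt with h2 | h2
        · have := h.eq_symm hv2t h2.symm
          rw [hMxy] at this
          exact hyv2.ne this
        · have h3 := hu _ h2 hlt
          have := h.eq_symm hv2t h3
          rw [hMy] at this
          exact (hxy.lt.trans hyv2).ne this
      · set u := M x with hu'
        have hMu : M u = x := h.invol x hxt
        have hut : u ≤ t := h.le x hxt
        have huz : ¬ u ≤ z := by
          intro hle
          rcases hle.eq_or_lt with h2 | h2
          · rw [h2] at h1
            exact h1.2 hxy.lt hyz.lt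
          · exact hMxy (hu u h1.lt h2)
        have huv : u ≤ v := by
          rcases h.lift1 hfin hz hxz.le with h2 | h2
          · exact absurd h2 huz
          · exact h2
        have huv' : u < v := by
          rcases huv.eq_or_lt with h2 | h2
          · exact absurd (h.inj hxt hz h2) hxz.ne
          · exact h2
        have huMy : u < M y := h.mono x y hyt hxy hMxy
        have hMyz : M y ≠ z := by
          intro h2
          rw [h2] at huMy
          exact huz huMy.le
        have hMyv : M y < v := h.mono y z hz hyz hMyz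
        have hMyt : M y ≤ t := h.le y hyt
        have hMMy : M (M y) = y := h.invol y hyt
        have hcov1 : ∀ v', u < v' → ¬ v' < M y := by
          intro v' h2 h3
          obtain ⟨v3, hvv3, hv3⟩ := exists_down hfin hMyt h3
          have hv3t : v3 ≤ t := hv3.le.trans hMyt
          have hlt : M v3 < y := by
            have := h.mono v3 (M y) hMyt hv3 (by
              intro h4
              have h5 := h.inj hv3t hyt h4
              rw [h5] at hvv3
              exact huz ((h2.le.trans hvv3).trans hyz.le))
            rwa [hMMy] at this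
          have huv3 : u < v3 := h2.trans_le hvv3
          rcases h.lift2 hfin hv3t huv3.le with h4 | h4
          · exact huz ((h4.trans hlt.le).trans hyz.le)
          · rw [hMu] at h4
            rcases h4.eq_or_lt with h5 | h5
            · have := h.eq_symm hv3t h5.symm
              exact huv3.ne this
            · exact hxy.2 h5 hlt
        have hsecond : ∀ v', u < v' → v' < v → v' ≤ M y ∧ M y ⋖ v := by
          intro v' h2 h3
          obtain ⟨v2, hvv2, hv2⟩ := exists_down hfin hvt h3
          have hv2t : v2 ≤ t := hv2.le.trans hvt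
          have huv2 : u < v2 := h2.trans_le hvv2
          have hlt : M v2 < z := by
            have := h.mono v2 v hvt hv2 (by
              intro h4
              have h5 := h.inj hv2t hz h4
              rw [h5] at huv2
              exact huz huv2.le)
            rwa [hMv] at this
          rcases h.lift2 hfin hv2t huv2.le with h4 | h4
          · exact absurd (h4.trans hlt.le) huz
          · rw [hMu] at h4
            rcases h4.eq_or_lt with h5 | h5
            · have := h.eq_symm hv2t h5.symm
              exact absurd this huv2.ne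
            · have h6 := hu _ h5 hlt
              have h7 : M y = v2 := h.eq_symm hv2t h6
              rw [h7]
              exact ⟨hvv2, hv2⟩
        apply C.R
        refine ⟨M y, ⟨huMy, fun v' h2 h3 => hcov1 v' h2 h3⟩, (hsecond (M y) huMy hMyv).2, ?_⟩
        intro v' h2 h3
        rcases (hsecond v' h2 h3).1.eq_or_lt with h4 | h4
        · exact h4
        · exact absurd h4 (hcov1 v' h2)

/-- (1) A fixed point `x` of an SPM on `P_{≤ t}` satisfies `R x t`. -/
lemma R_of_fixed (hfin : (Set.Iic t).Finite) {x : P} (hx : x ≤ t) (hxf : M x = x) : R x t := by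
  revert hxf
  refine chain_up hfin le_rfl (fun x => M x = x → R x t) ?_ ?_ x hx
  · intro h1
    have := h.top
    rw [h1] at this
    exact absurd this.lt (lt_irrefl t)
  · intro x y hxy hy ih hxf
    by_cases hyf : M y = y
    · exact (ih hyf).mono hxy.le le_rfl
    · exact (h.C_up hfin hy hxy hxf hyf).R.mono le_rfl (h.le y hy)

/-- (2) The relation `R · t` is preserved by `M` at non-fixed points. -/
lemma R_of_R (hfin : (Set.Iic t).Finite) {x : P} (hx : x ≤ t) (hxne : M x ≠ x) (hR : R x t) :
    R (M x) t := by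
  rcases h.adj x hx with h1 | h1 | h1
  · exact hR.mono h1.le le_rfl
  · exact absurd h1 hxne
  · obtain ⟨z, s, hxz, hC, hst⟩ := hR
    have hzt : z ≤ t := hC.lt.le.trans hst
    by_cases hyz : M x ≤ z
    · exact ⟨z, s, hyz, hC, hst⟩
    · have hyMz : M x ≤ M z := by
        rcases h.lift1 hfin hzt hxz with h2 | h2
        · exact absurd h2 hyz
        · exact h2
      have hzne : M z ≠ z := fun h2 => hyz (by rw [h2] at hyMz; exact hyMz)
      by_cases hsf : M s = s
      · have hC' := hC
        obtain ⟨w, hzw, hws, hu⟩ := hC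
        rcases h.F3a hfin hst hzw hws hu hsf hzne with h2 | h2
        · exact (h.R_of_fixed hfin hst hsf).mono (hyMz.trans (h2.le.trans hws.le)) le_rfl
        · exact absurd (hyMz.trans h2.le) hyz
      · exact (h.F3b hfin hst hC hsf hzne).mono hyMz (h.le s hst)

end SPMOn

/-! ### Every pircon has a rank function -/

lemma iic_finite (hP : IsPircon P) (x : P) : (Set.Iic x).Finite := by
  by_cases hx : IsMin x
  · have : Set.Iic x = {x} := by
      ext y
      simp only [Set.mem_Iic, Set.mem_singleton_iff]
      exact ⟨fun hy => le_antisymm hy (hx hy), fun hy => hy.le⟩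
    rw [this]
    exact Set.finite_singleton x
  · exact (hP x hx).1

/-- The chosen SPM (ambient version) on `P_{≤ x}`, for non-minimal `x`. -/
noncomputable def spm (hP : IsPircon P) (x : P) (hx : ¬ IsMin x) : P → P :=
  extend (hP x hx).2.choose

lemma spm_spec (hP : IsPircon P) (x : P) (hx : ¬ IsMin x) : SPMOn x (spm hP x hx) :=
  spmOn_extend (hP x hx).2.choose_spec

lemma ncard_iic_lt (hP : IsPircon P) {x y : P} (h : x < y) :
    (Set.Iic x).ncard < (Set.Iic y).ncard := by
  apply Set.ncard_lt_ncard _ (iic_finite hP y)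
  refine ⟨fun v hv => le_trans hv h.le, fun hsub => ?_⟩
  have hy : y ∈ Set.Iic x := hsub (Set.mem_Iic.mpr (le_refl y))
  exact absurd (Set.mem_Iic.mp hy) h.not_ge

open Classical in
/-- The rank function of a pircon. -/
noncomputable def rk (hP : IsPircon P) (x : P) : ℕ :=
  if h : IsMin x then 0 else rk hP (spm hP x h x) + 1
termination_by (Set.Iic x).ncard
decreasing_by exact ncard_iic_lt hP (spm_spec hP x h).top.lt

lemma rk_of_isMin (hP : IsPircon P) {x : P} (h : IsMin x) : rk hP x = 0 := by
  rw [rk]; simp [h]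

lemma rk_of_not_isMin (hP : IsPircon P) {x : P} (h : ¬ IsMin x) :
    rk hP x = rk hP (spm hP x h x) + 1 := by
  rw [rk]; simp [h]

lemma rk_covBy (hP : IsPircon P) : ∀ n : ℕ, ∀ x y : P, (Set.Iic y).ncard ≤ n → x ⋖ y →
    rk hP y = rk hP x + 1 := by
  intro n
  induction n with
  | zero =>
    intro x y hn hxy
    exact absurd (lt_of_le_of_lt (Nat.zero_le _) (ncard_iic_lt hP hxy.lt)) (by omega)
  | succ n ih =>
    intro x y hn hxy
    have hymin : ¬ IsMin y := fun h => hxy.lt.not_ge (h hxy.lt.le)
    have hfin := iic_finite hP y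
    rw [rk_of_not_isMin hP hymin]
    set M := spm hP y hymin with hM
    have h : SPMOn y M := spm_spec hP y hymin
    by_cases hxc : x = M y
    · rw [← hxc]
    · have hMx : M x ≠ y := by
        intro h1
        exact hxc (h.eq_symm hxy.le h1).symm
      have hlt : M x < M y := h.mono x y le_rfl hxy hMx
      have hMyy : M y ⋖ y := h.top
      have hMxx : M x ⋖ x := by
        rcases h.adj x hxy.le with h1 | h1 | h1
        · exact h1
        · rw [h1] at hlt
          exact absurd hMyy.lt (hxy.2 hlt)
        · exact absurd hMyy.lt (hxy.2 (h1.lt.trans hlt))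
      have hcov : M x ⋖ M y := by
        refine ⟨hlt, fun e he he' => ?_⟩
        obtain ⟨e1, he1, he1e⟩ := exists_up hfin (he'.le.trans hMyy.le) he
        have he1y : e1 < M y := he1e.trans_lt he'
        have he1x : e1 ≠ x := by
          rintro rfl
          exact hxy.2 he1y hMyy.lt
        have hlt2 : x < M e1 := by
          have := h.mono (M x) e1 (he1y.le.trans hMyy.le) he1
            (by rw [h.invol x hxy.le]; exact he1x.symm)
          rwa [h.invol x hxy.le] at this
        rcases (h.le e1 (he1y.le.trans hMyy.le)).eq_or_lt with h1 | h1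
        · have := h.eq_symm (he1y.le.trans hMyy.le) h1
          exact he1y.ne' this
        · exact hxy.2 hlt2 h1
      have h1 := ih (M x) x (by have := ncard_iic_lt hP hxy.lt; omega) hMxx
      have h2 := ih (M x) (M y) (by have := ncard_iic_lt hP hMyy.lt; omega) hcov
      omega

lemma isRankFunction_rk (hP : IsPircon P) : IsRankFunction (rk hP) :=
  ⟨fun _ h => rk_of_isMin hP h, fun x y h => rk_covBy hP _ x y le_rfl h⟩

end ambient

/-! ### The doubled poset -/

/-- The underlying set of the zircon: two copies `low x` and `up x` of every `x` in `P`. -/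
inductive Dbl (P : Type u) : Type u
  | low (x : P) : Dbl P
  | up (x : P) : Dbl P

namespace Dbl

variable {P : Type u} [PartialOrder P]

/-- The order of the doubled poset. -/
def le : Dbl P → Dbl P → Prop
  | low x, low y => x ≤ y
  | low x, up y => x ≤ y
  | up x, up y => x ≤ y
  | up x, low y => R x y

instance : PartialOrder (Dbl P) where
  le := le
  le_refl a := by cases a <;> exact le_refl _
  le_trans a b c := by
    cases a <;> cases b <;> cases c
    · exact fun (h1 : _ ≤ _) (h2 : _ ≤ _) => (le_trans h1 h2 : _ ≤ _)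
    · exact fun (h1 : _ ≤ _) (h2 : _ ≤ _) => (le_trans h1 h2 : _ ≤ _)
    · exact fun (h1 : _ ≤ _) (h2 : R _ _) => (le_trans h1 h2.lt.le : _ ≤ _)
    · exact fun (h1 : _ ≤ _) (h2 : _ ≤ _) => (le_trans h1 h2 : _ ≤ _)
    · exact fun (h1 : R _ _) (h2 : _ ≤ _) => (h1.mono le_rfl h2 : R _ _)
    · exact fun (h1 : R _ _) (h2 : _ ≤ _) => (le_trans h1.lt.le h2 : _ ≤ _)
    · exact fun (h1 : _ ≤ _) (h2 : R _ _) => (h2.mono h1 le_rfl : R _ _)
    · exact fun (h1 : _ ≤ _) (h2 : _ ≤ _) => (le_trans h1 h2 : _ ≤ _)
  le_antisymm a b := by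
    cases a <;> cases b
    · exact fun (h1 : _ ≤ _) (h2 : _ ≤ _) => congrArg low (le_antisymm h1 h2)
    · exact fun (h1 : _ ≤ _) (h2 : R _ _) => absurd h1 h2.lt.not_ge
    · exact fun (h1 : R _ _) (h2 : _ ≤ _) => absurd h2 h1.lt.not_ge
    · exact fun (h1 : _ ≤ _) (h2 : _ ≤ _) => congrArg up (le_antisymm h1 h2)

lemma low_le_low {x y : P} : low x ≤ low y ↔ x ≤ y := Iff.rfl
lemma low_le_up {x y : P} : low x ≤ up y ↔ x ≤ y := Iff.rfl
lemma up_le_up {x y : P} : up x ≤ up y ↔ x ≤ y := Iff.rfl
lemma up_le_low {x y : P} : up x ≤ low y ↔ R x y := Iff.rfl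

lemma low_lt_low {x y : P} : low x < low y ↔ x < y := by
  rw [lt_iff_le_not_ge, lt_iff_le_not_ge, low_le_low, low_le_low]
lemma up_lt_up {x y : P} : up x < up y ↔ x < y := by
  rw [lt_iff_le_not_ge, lt_iff_le_not_ge, up_le_up, up_le_up]
lemma low_lt_up {x y : P} : low x < up y ↔ x ≤ y := by
  rw [lt_iff_le_not_ge, low_le_up, up_le_low]
  exact ⟨fun h => h.1, fun h => ⟨h, fun hR => hR.lt.not_ge h⟩⟩
lemma up_lt_low {x y : P} : up x < low y ↔ R x y := by
  rw [lt_iff_le_not_ge, low_le_up, up_le_low]
  exact ⟨fun h => h.1, fun h => ⟨h, h.lt.not_ge⟩⟩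

lemma low_covBy_low {x y : P} : low x ⋖ low y ↔ x ⋖ y := by
  constructor
  · intro h
    refine ⟨low_lt_low.mp h.lt, fun v h1 h2 => ?_⟩
    exact h.2 (c := low v) (low_lt_low.mpr h1) (low_lt_low.mpr h2)
  · intro h
    refine ⟨low_lt_low.mpr h.lt, ?_⟩
    rintro (v | v) h1 h2
    · exact h.2 (low_lt_low.mp h1) (low_lt_low.mp h2)
    · rw [low_lt_up] at h1
      obtain ⟨z, s, hz, ⟨w, hw1, hw2, _⟩, hs⟩ := up_lt_low.mp h2
      exact h.2 ((h1.trans hz).trans_lt hw1.lt) (hw2.lt.trans_le hs)

lemma low_covBy_up {x y : P} : low x ⋖ up y ↔ x = y := by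
  constructor
  · intro h
    by_contra hne
    have hxy : x ≤ y := low_lt_up.mp h.lt
    exact h.2 (c := low y) (low_lt_low.mpr (lt_of_le_of_ne hxy hne)) (low_lt_up.mpr le_rfl)
  · rintro rfl
    refine ⟨low_lt_up.mpr le_rfl, ?_⟩
    rintro (v | v) h1 h2
    · exact (low_lt_low.mp h1).not_ge (low_lt_up.mp h2)
    · exact (up_lt_up.mp h2).not_ge (low_lt_up.mp h1)

lemma up_covBy_up {x y : P} : up x ⋖ up y ↔ x ⋖ y := by
  constructor
  · intro h
    refine ⟨up_lt_up.mp h.lt, fun v h1 h2 => ?_⟩
    exact h.2 (c := up v) (up_lt_up.mpr h1) (up_lt_up.mpr h2)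
  · intro h
    refine ⟨up_lt_up.mpr h.lt, ?_⟩
    rintro (v | v) h1 h2
    · rw [low_lt_up] at h2
      obtain ⟨z, s, hz, ⟨w, hw1, hw2, _⟩, hs⟩ := up_lt_low.mp h1
      exact h.2 (hz.trans_lt hw1.lt) ((hw2.lt.trans_le hs).trans_le h2)
    · exact h.2 (up_lt_up.mp h1) (up_lt_up.mp h2)

lemma up_covBy_low {x y : P} : up x ⋖ low y ↔ C x y := by
  constructor
  · intro h
    obtain ⟨z, s, hz, hC, hs⟩ := up_lt_low.mp h.lt
    have h1 : x = z := by
      by_contra hne
      exact h.2 (c := up z) (up_lt_up.mpr (lt_of_le_of_ne hz hne))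
        (up_lt_low.mpr ⟨z, s, le_rfl, hC, hs⟩)
    have h2 : s = y := by
      by_contra hne
      exact h.2 (c := low s) (up_lt_low.mpr ⟨z, s, hz, hC, le_rfl⟩)
        (low_lt_low.mpr (lt_of_le_of_ne hs hne))
    rw [h1, ← h2]
    exact hC
  · intro h
    refine ⟨up_lt_low.mpr h.R, ?_⟩
    obtain ⟨m, hm1, hm2, hu⟩ := h
    rintro (v | v) h1 h2
    · obtain ⟨z, s, hz, ⟨w, hw1, hw2, _⟩, hs⟩ := up_lt_low.mp h1
      have hv := low_lt_low.mp h2
      have e1 := hu w (hz.trans_lt hw1.lt) ((hw2.lt.trans_le hs).trans hv)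
      have e2 := hu s ((hz.trans_lt hw1.lt).trans hw2.lt) (hs.trans_lt hv)
      exact hw2.lt.ne (e1.trans e2.symm)
    · obtain ⟨z, s, hz, ⟨w, hw1, hw2, _⟩, hs⟩ := up_lt_low.mp h2
      have hv := up_lt_up.mp h1
      have e1 := hu v hv ((hz.trans_lt hw1.lt).trans (hw2.lt.trans_le hs))
      have e2 := hu w (hv.trans (hz.trans_lt hw1.lt)) (hw2.lt.trans_le hs)
      exact (hz.trans_lt hw1.lt).ne (e1.trans e2.symm)

/-- The special matching that swaps `low x` and `up x`. -/
def swap : Dbl P → Dbl P
  | low x => up x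
  | up x => low x

open Classical in
/-- The extension of an SPM `M` of `P_{≤ t}` to the doubled poset. -/
noncomputable def ext (M : P → P) : Dbl P → Dbl P
  | low x => if M x = x then up x else low (M x)
  | up x => if M x = x then low x else up (M x)

lemma spmOn_swap (t : P) : SPMOn (up t) (swap : Dbl P → Dbl P) where
  le x hx := by
    cases x with
    | low x => exact hx
    | up x => exact hx
  invol x _ := by cases x <;> rfl
  top := low_covBy_up.mpr rfl
  adj x _ := by
    cases x with
    | low x => exact Or.inr (Or.inr (low_covBy_up.mpr rfl))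
    | up x => exact Or.inl (low_covBy_up.mpr rfl)
  mono x y _ hxy hne := by
    cases x with
    | low x =>
      cases y with
      | low y => exact up_lt_up.mpr (low_covBy_low.mp hxy).lt
      | up y => exact absurd (congrArg up (low_covBy_up.mp hxy)) hne
    | up x =>
      cases y with
      | low y =>
        exact low_lt_up.mpr (up_covBy_low.mp hxy).lt.le
      | up y => exact low_lt_low.mpr (up_covBy_up.mp hxy).lt

variable {t : P} {M : P → P}

omit [PartialOrder P] in
lemma ext_low_fixed {x : P} (h : M x = x) : ext M (low x) = up x := by simp [ext, h]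
omit [PartialOrder P] in
lemma ext_up_fixed {x : P} (h : M x = x) : ext M (up x) = low x := by simp [ext, h]
omit [PartialOrder P] in
lemma ext_low {x : P} (h : M x ≠ x) : ext M (low x) = low (M x) := by simp [ext, h]
omit [PartialOrder P] in
lemma ext_up {x : P} (h : M x ≠ x) : ext M (up x) = up (M x) := by simp [ext, h]

lemma spmOn_ext (hfin : (Set.Iic t).Finite) (h : SPMOn t M) : SPMOn (low t) (ext M) where
  le x hx := by
    cases x with
    | low x =>
      have hx' : x ≤ t := hx
      by_cases hf : M x = x
      · rw [ext_low_fixed hf]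
        exact h.R_of_fixed hfin hx' hf
      · rw [ext_low hf]
        exact h.le x hx'
    | up x =>
      have hR : R x t := hx
      by_cases hf : M x = x
      · rw [ext_up_fixed hf]
        exact hR.lt.le
      · rw [ext_up hf]
        exact h.R_of_R hfin hR.lt.le hf hR
  invol x hx := by
    cases x with
    | low x =>
      have hx' : x ≤ t := hx
      by_cases hf : M x = x
      · rw [ext_low_fixed hf, ext_up_fixed hf]
      · have hf' : M (M x) ≠ M x := by rw [h.invol x hx']; exact Ne.symm hf
        rw [ext_low hf, ext_low hf', h.invol x hx']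
    | up x =>
      have hR : R x t := hx
      by_cases hf : M x = x
      · rw [ext_up_fixed hf, ext_low_fixed hf]
      · have hf' : M (M x) ≠ M x := by rw [h.invol x hR.lt.le]; exact Ne.symm hf
        rw [ext_up hf, ext_up hf', h.invol x hR.lt.le]
  top := by
    rw [ext_low h.top.lt.ne]
    exact low_covBy_low.mpr h.top
  adj x hx := by
    cases x with
    | low x =>
      have hx' : x ≤ t := hx
      by_cases hf : M x = x
      · rw [ext_low_fixed hf]
        exact Or.inr (Or.inr (low_covBy_up.mpr rfl))
      · rw [ext_low hf]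
        rcases h.adj x hx' with h1 | h1 | h1
        · exact Or.inl (low_covBy_low.mpr h1)
        · exact absurd h1 hf
        · exact Or.inr (Or.inr (low_covBy_low.mpr h1))
    | up x =>
      have hR : R x t := hx
      by_cases hf : M x = x
      · rw [ext_up_fixed hf]
        exact Or.inl (low_covBy_up.mpr rfl)
      · rw [ext_up hf]
        rcases h.adj x hR.lt.le with h1 | h1 | h1
        · exact Or.inl (up_covBy_up.mpr h1)
        · exact absurd h1 hf
        · exact Or.inr (Or.inr (up_covBy_up.mpr h1))
  mono u v hv huv hne := by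
    cases u with
    | low x =>
      cases v with
      | low y =>
        have hy : y ≤ t := hv
        have hxy : x ⋖ y := low_covBy_low.mp huv
        by_cases hfx : M x = x
        · by_cases hfy : M y = y
          · rw [ext_low_fixed hfx, ext_low_fixed hfy]
            exact up_lt_up.mpr hxy.lt
          · rw [ext_low_fixed hfx, ext_low hfy]
            exact up_lt_low.mpr (h.C_up hfin hy hxy hfx hfy).R
        · by_cases hfy : M y = y
          · rw [ext_low hfx, ext_low_fixed hfy]
            exact low_lt_up.mpr ((h.down_of_fixed hy hxy hfy hfx).le.trans hxy.le)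
          · rw [ext_low hfx] at hne
            rw [ext_low hfx, ext_low hfy]
            exact low_lt_low.mpr (h.mono x y hy hxy (fun h1 => hne (congrArg low h1)))
      | up y =>
        have hxy : x = y := low_covBy_up.mp huv
        subst hxy
        by_cases hfx : M x = x
        · exact absurd (ext_low_fixed hfx) hne
        · rw [ext_low hfx, ext_up hfx]
          exact low_lt_up.mpr le_rfl
    | up x =>
      cases v with
      | low z =>
        have hz : z ≤ t := hv
        have hC : C x z := up_covBy_low.mp huv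
        have hxt : x ≤ t := hC.lt.le.trans hz
        by_cases hfx : M x = x
        · have hxz : x ≤ M z := by
            rcases h.lift2 hfin hz hC.lt.le with h1 | h1
            · exact h1
            · rwa [hfx] at h1
          by_cases hfz : M z = z
          · rw [ext_up_fixed hfx, ext_low_fixed hfz]
            exact low_lt_up.mpr hC.lt.le
          · rw [ext_up_fixed hfx, ext_low hfz]
            refine low_lt_low.mpr (lt_of_le_of_ne hxz ?_)
            intro h1
            have := h.eq_symm hz h1.symm
            rw [hfx] at this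
            exact hC.lt.ne this
        · by_cases hfz : M z = z
          · rw [ext_up hfx, ext_low_fixed hfz]
            obtain ⟨y, hxy, hyz, hu⟩ := hC
            have hxz := hxy.lt.trans hyz.lt
            rcases h.F3a hfin hz hxy hyz hu hfz hfx with h1 | h1
            · rw [h1]
              exact up_lt_up.mpr hyz.lt
            · exact up_lt_up.mpr (h1.lt.trans hxz)
          · rw [ext_up hfx, ext_low hfz]
            exact up_lt_low.mpr (h.F3b hfin hz hC hfz hfx)
      | up y =>
        have hR : R y t := hv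
        have hy : y ≤ t := hR.lt.le
        have hxy : x ⋖ y := up_covBy_up.mp huv
        by_cases hfx : M x = x
        · by_cases hfy : M y = y
          · rw [ext_up_fixed hfx, ext_up_fixed hfy]
            exact low_lt_low.mpr hxy.lt
          · rw [ext_up_fixed hfx, ext_up hfy]
            exact low_lt_up.mpr (hxy.le.trans (h.up_of_fixed hy hxy hfx hfy).le)
        · by_cases hfy : M y = y
          · rw [ext_up hfx, ext_up_fixed hfy]
            exact up_lt_low.mpr (h.C_down hfin hy hxy hfy hfx).R
          · rw [ext_up hfx] at hne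
            rw [ext_up hfx, ext_up hfy]
            exact up_lt_up.mpr (h.mono x y hy hxy (fun h1 => hne (congrArg up h1)))

omit [PartialOrder P] in
lemma ext_ne (x : Dbl P) : ext M x ≠ x := by
  cases x with
  | low x =>
    by_cases hf : M x = x
    · rw [ext_low_fixed hf]; intro h1; cases h1
    · rw [ext_low hf]; intro h1; injection h1 with h1; exact hf h1
  | up x =>
    by_cases hf : M x = x
    · rw [ext_up_fixed hf]; intro h1; cases h1
    · rw [ext_up hf]; intro h1; injection h1 with h1; exact hf h1

lemma isMin_low {x : P} : IsMin (low x) ↔ IsMin x := by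
  constructor
  · intro h y hy
    exact h (b := low y) hy
  · intro h y hy
    cases y with
    | low y => exact h hy
    | up y =>
      have hR : R y x := hy
      exact absurd (h hR.lt.le) hR.lt.not_ge

lemma not_isMin_up {x : P} : ¬ IsMin (up x) := by
  intro h
  have h1 : up x ≤ low x := h (b := low x) (low_le_up.mpr le_rfl)
  exact (up_le_low.mp h1).lt.ne rfl

lemma iic_finite_dbl (hfin : ∀ x : P, (Set.Iic x).Finite) (z : Dbl P) : (Set.Iic z).Finite := by
  have key : ∀ x : P, (low '' Set.Iic x ∪ up '' Set.Iic x : Set (Dbl P)).Finite := fun x =>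
    ((hfin x).image _).union ((hfin x).image _)
  cases z with
  | low x =>
    refine (key x).subset ?_
    rintro (y | y) hy
    · exact Or.inl ⟨y, hy, rfl⟩
    · exact Or.inr ⟨y, (up_le_low.mp hy).lt.le, rfl⟩
  | up x =>
    refine (key x).subset ?_
    rintro (y | y) hy
    · exact Or.inl ⟨y, hy, rfl⟩
    · exact Or.inr ⟨y, hy, rfl⟩

/-- The chosen special matchings on the principal ideals of the doubled poset. -/
noncomputable def matching (hP : IsPircon P) : ∀ z : Dbl P, ¬ IsMin z → Set.Iic z → Set.Iic z
  | low x, hx => restr (low x) (ext (spm hP x (fun h => hx (isMin_low.mpr h))))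
      (spmOn_ext (iic_finite hP x) (spm_spec hP x _)).le
  | up x, _ => restr (up x) swap (spmOn_swap x).le

lemma isSpecialMatching_matching (hP : IsPircon P) (z : Dbl P) (hz : ¬ IsMin z) :
    IsSpecialMatching (matching hP z hz) := by
  cases z with
  | low x =>
    have hs := spm_spec hP x (fun h => hz (isMin_low.mpr h))
    refine ⟨isSPM_restr (spmOn_ext (iic_finite hP x) hs), ?_⟩
    intro y hy
    exact ext_ne (y : Dbl P) (congrArg Subtype.val hy)
  | up x =>
    refine ⟨isSPM_restr (spmOn_swap x), ?_⟩
    rintro ⟨y, hy⟩ h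
    have h1 : swap y = y := congrArg Subtype.val h
    cases y <;> cases h1

/-- The rank function of the doubled poset. -/
noncomputable def rank (hP : IsPircon P) : Dbl P → ℕ
  | low x => rk hP x
  | up x => rk hP x + 1

lemma isRankFunction_rank (hP : IsPircon P) : IsRankFunction (rank hP) := by
  have hr := isRankFunction_rk hP
  refine ⟨?_, ?_⟩
  · intro z hz
    cases z with
    | low x => exact hr.1 x (isMin_low.mp hz)
    | up x => exact absurd hz not_isMin_up
  · intro u v huv
    cases u with
    | low x =>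
      cases v with
      | low y => exact hr.2 x y (low_covBy_low.mp huv)
      | up y =>
        have := low_covBy_up.mp huv
        subst this
        rfl
    | up x =>
      cases v with
      | low y =>
        obtain ⟨w, h1, h2, _⟩ := up_covBy_low.mp huv
        have e1 := hr.2 x w h1
        have e2 := hr.2 w y h2
        simp only [rank]
        omega
      | up y =>
        have e1 := hr.2 x y (up_covBy_up.mp huv)
        simp only [rank]
        omega

/-- The copy of `P` in the doubled poset. -/
def lowSet (P : Type u) : Set (Dbl P) := Set.range low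

/-- `P` is isomorphic to its copy. -/
def iso : P ≃o lowSet P where
  toFun x := ⟨low x, x, rfl⟩
  invFun z := match z with
    | ⟨low x, _⟩ => x
    | ⟨up x, h⟩ => absurd h (by rintro ⟨y, hy⟩; cases hy)
  left_inv x := rfl
  right_inv z := by
    rcases z with ⟨z, x, rfl⟩
    rfl
  map_rel_iff' := by
    intro a b
    exact Iff.rfl

lemma covBy_lowSet {x y : P} : (iso x : lowSet P) ⋖ iso y ↔ x ⋖ y := by
  constructor
  · intro h
    refine ⟨iso.lt_iff_lt.mp h.lt, fun v h1 h2 => ?_⟩
    exact h.2 (c := iso v) (iso.lt_iff_lt.mpr h1) (iso.lt_iff_lt.mpr h2)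
  · intro h
    refine ⟨iso.lt_iff_lt.mpr h.lt, fun v h1 h2 => ?_⟩
    obtain ⟨v, rfl⟩ := iso.surjective v
    exact h.2 (iso.lt_iff_lt.mp h1) (iso.lt_iff_lt.mp h2)

/-- The transport of a self-map of `P` to its copy. -/
def transport (M : P → P) : lowSet P → lowSet P := fun x => iso (M (iso.symm x))

lemma transport_iso (M : P → P) (x : P) : transport M (iso x) = iso (M x) := by
  simp [transport]

lemma spmOn_transport {q : P} {M : P → P} (h : SPMOn q M) : SPMOn (iso q) (transport M) where
  le x hx := by
    obtain ⟨x, rfl⟩ := iso.surjective x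
    rw [transport_iso]
    exact iso.le_iff_le.mpr (h.le x (iso.le_iff_le.mp hx))
  invol x hx := by
    obtain ⟨x, rfl⟩ := iso.surjective x
    rw [transport_iso, transport_iso, h.invol x (iso.le_iff_le.mp hx)]
  top := by
    rw [transport_iso]
    exact covBy_lowSet.mpr h.top
  adj x hx := by
    obtain ⟨x, rfl⟩ := iso.surjective x
    rw [transport_iso]
    rcases h.adj x (iso.le_iff_le.mp hx) with h1 | h1 | h1
    · exact Or.inl (covBy_lowSet.mpr h1)
    · exact Or.inr (Or.inl (congrArg iso h1))
    · exact Or.inr (Or.inr (covBy_lowSet.mpr h1))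
  mono x y hy hxy hne := by
    obtain ⟨x, rfl⟩ := iso.surjective x
    obtain ⟨y, rfl⟩ := iso.surjective y
    rw [transport_iso] at hne
    rw [transport_iso, transport_iso]
    exact iso.lt_iff_lt.mpr (h.mono x y (iso.le_iff_le.mp hy) (covBy_lowSet.mp hxy)
      (fun h1 => hne (congrArg iso h1)))

lemma inducedMap_eq {q : P} {M : P → P} (hM : SPMOn q M)
    (h : ∀ x ≤ low q, ext M x ≤ low q) :
    inducedMap (lowSet P) (iso q) (restr (low q) (ext M) h) =
      restr (iso q) (transport M) (spmOn_transport hM).le := by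
  funext ⟨x, hx⟩
  obtain ⟨x, rfl⟩ := iso.surjective x
  apply Subtype.ext
  apply Subtype.ext
  change _ = (low (M x) : Dbl P)
  unfold inducedMap
  split_ifs with h2
  · change ext M (low x) = low (M x)
    have h3 : ext M (low x) ∈ lowSet P := h2
    by_cases hf : M x = x
    · rw [ext_low_fixed hf] at h3
      obtain ⟨y, hy⟩ := h3
      cases hy
    · rw [ext_low hf]
  · change (low x : Dbl P) = low (M x)
    have h3 : ¬ (ext M (low x) ∈ lowSet P) := h2
    by_cases hf : M x = x
    · rw [hf]
    · rw [ext_low hf] at h3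
      exact absurd ⟨M x, rfl⟩ h3

lemma isInducedPircon (hP : IsPircon P) :
    IsInducedPircon (rank hP) (matching hP) (lowSet P) where
  isSPM p hp := by
    obtain ⟨q, rfl⟩ := iso.surjective p
    have hq : ¬ IsMin q := by
      intro h
      apply hp
      intro y hy
      obtain ⟨y, rfl⟩ := iso.surjective y
      exact iso.le_iff_le.mpr (h (iso.le_iff_le.mp hy))
    have hs := spm_spec hP q hq
    have h1 : inducedMap (lowSet P) (iso q)
        (matching hP ((iso q : lowSet P) : Dbl P) (not_isMin_coe hp)) =
        restr (iso q) (transport (spm hP q hq)) (spmOn_transport hs).le :=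
      inducedMap_eq hs (spmOn_ext (iic_finite hP q) hs).le
    rw [h1]
    exact isSPM_restr (spmOn_transport hs)
  isRank := by
    have hr := isRankFunction_rk hP
    refine ⟨?_, ?_⟩
    · intro x hx
      obtain ⟨x, rfl⟩ := iso.surjective x
      refine hr.1 x ?_
      intro y hy
      exact iso.le_iff_le.mp (hx (iso.le_iff_le.mpr hy))
    · intro x y hxy
      obtain ⟨x, rfl⟩ := iso.surjective x
      obtain ⟨y, rfl⟩ := iso.surjective y
      exact hr.2 x y (covBy_lowSet.mp hxy)

lemma isZircon (hP : IsPircon P) : IsZircon (Dbl P) := fun z hz =>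
  ⟨iic_finite_dbl (iic_finite hP) z, matching hP z hz, isSpecialMatching_matching hP z hz⟩

end Dbl

/-- **Every pircon is an induced pircon of some zircon.** For every pircon `P` there are a zircon
`Z`, a rank function `rk` of `Z`, special matchings `M z` on the ideals `Z_{≤ z}` and an induced
subposet `S` of `Z` isomorphic to `P` that is an induced pircon of `Z`. -/
theorem result (P : Type u) [PartialOrder P] (hP : IsPircon P) :
    ∃ (Z : Type u) (_ : PartialOrder Z) (rk : Z → ℕ)
      (M : ∀ z : Z, ¬ IsMin z → Set.Iic z → Set.Iic z) (S : Set Z),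
      IsZircon Z ∧ IsRankFunction rk ∧
      (∀ (z : Z) (hz : ¬ IsMin z), IsSpecialMatching (M z hz)) ∧
      IsInducedPircon rk M S ∧ Nonempty (P ≃o S) :=
  ⟨Dbl P, inferInstance, Dbl.rank hP, Dbl.matching hP, Dbl.lowSet P, Dbl.isZircon hP,
    Dbl.isRankFunction_rank hP, Dbl.isSpecialMatching_matching hP, Dbl.isInducedPircon hP,
    ⟨Dbl.iso⟩⟩

end Pool.Agent.Results.MP_d57cd0_co.PirconInduced
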